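import Pool.Agent.H28.Lusin.Final
import Pool.Agent.H28.Lusin.TopFin
import Pool.Agent.H28.Lusin.Stmt

/-!
# Failure of the Lusin property for `k`-forms, `2 ≤ k ≤ n`

The definitions used in the statement are in `Pool.Agent.H28.Lusin.Stmt`. The proof uses the
equivalent definitions of `Pool.Agent.H28.Lusin.CurDefs`.
-/

open MeasureTheory Set Filter
open scoped ContDiff Topology ENNReal

namespace Pool.Agent.Results.MP_507414_an.LusinFails

open Pool.Agent.H28.LusinStmt

/-- A normal cycle as a linear functional on test forms. -/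
noncomputable def toCur {n m : ℕ} (N : (Eu n → Cov n (m + 1)) → ℝ) (hN : IsLinearOnTest N) :
    Pool.Agent.H28.Lusin.Cur n (m + 1) where
  toFun := fun α => N (α : Eu n → Cov n (m + 1))
  map_add' := fun α β => by
    have h := hN 1 1 α β α.2 β.2
    simp only [one_smul, one_mul] at h
    exact h
  map_smul' := fun c α => by
    have h := hN c 0 α α α.2 α.2
    simp only [zero_smul, add_zero, zero_mul] at h
    exact h

theorem massOn_le {n m : ℕ} {N : (Eu n → Cov n (m + 1)) → ℝ} (T : Pool.Agent.H28.Lusin.Cur n (m + 1))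
    (h : ∀ α : Pool.Agent.H28.Lusin.TestForm n (m + 1), T α = N (α : Eu n → Cov n (m + 1))) (U : Set (Eu n)) :
    Pool.Agent.H28.Lusin.massOn T U ≤ massOn N U := by
  refine iSup_le fun α => ?_
  rw [h]
  exact le_iSup₂_of_le (α.1 : Eu n → Cov n (m + 1)) ⟨α.1.2, α.2⟩ le_rfl

theorem Vk_subset {n m : ℕ} (μ : Measure (Eu n)) [IsLocallyFiniteMeasure μ] (x : Eu n) :
    Vk m μ x ⊆ Pool.Agent.H28.Lusin.Vk m μ x := by
  rintro v ⟨N, ⟨hlin, hmass, hcyc⟩, hlim⟩
  refine ⟨toCur N hlin, ?_, ?_, ?_⟩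
  · exact lt_of_le_of_lt (massOn_le _ (fun α => rfl) univ) hmass
  · intro η
    exact hcyc (η : Eu n → Cov n m) η.2
  · refine tendsto_of_tendsto_of_tendsto_of_le_of_le tendsto_const_nhds hlim
      (fun r => zero_le) (fun r => ?_)
    exact ENNReal.div_le_div_right (massOn_le _ (fun α => rfl) _) _

theorem lusin_of_lusin {n m : ℕ} (h : LusinProperty n m) : Pool.Agent.H28.Lusin.LusinProperty n m := by
  obtain ⟨C, hC⟩ := h
  refine ⟨C, fun μ hμ Ω hΩ hΩμ α hα hτ ε hε => ?_⟩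
  obtain ⟨φ, K, h1, h2, h3, h4, h5, h6⟩ := hC μ hμ Ω hΩ hΩμ α ⟨fun I => hα _, by
    filter_upwards [hτ] with x hx τ hτx
    exact hx τ (Vk_subset μ x hτx)⟩ ε hε
  exact ⟨φ, K, h1, h2, h3, h4, h5, h6⟩

/-- With `k = m + 1` and `2 ≤ k ≤ n`, the Lusin property for `k`-forms on `ℝⁿ` fails. -/
theorem result (n m : ℕ) (hm : 1 ≤ m) (hmn : m + 1 ≤ n) : ¬ LusinProperty n m := by
  obtain ⟨q, rfl⟩ : ∃ q, m = q + 1 := ⟨m - 1, by omega⟩
  intro h
  rcases eq_or_lt_of_le hmn with h1 | h1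
  · subst h1
    exact Pool.Agent.H28.Lusin.not_lusin_top q (lusin_of_lusin h)
  · exact Pool.Agent.H28.Lusin.not_lusin (by omega) (lusin_of_lusin h)

end Pool.Agent.Results.MP_507414_an.LusinFails
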